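import Mathlib

/-! A `C^1` function with vanishing negative Fourier coefficients has a power series which is
Lipschitz along the radius. -/

namespace Pool.Agent.P.MP_ee8931_an

open Complex Real MeasureTheory intervalIntegral

noncomputable def II (g : ℝ → ℂ) (n : ℤ) : ℂ := ∫ x in (0 : ℝ)..2 * π, cexp (-(n * x * I)) * g x

theorem coeff_eq (g : ℝ → ℂ) (n : ℤ) :
    fourierCoeffOn Real.two_pi_pos g n = (1 / (2 * π) : ℂ) * II g n := by
  rw [fourierCoeffOn_eq_integral, II, Complex.real_smul]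
  congr 1
  · push_cast; simp
  · congr 1
    ext x
    rw [fourier_coe_apply, smul_eq_mul]
    congr 2
    have : (π : ℂ) ≠ 0 := by exact_mod_cast Real.pi_ne_zero
    push_cast
    rw [sub_zero]
    field_simp

theorem norm_cexp (s : ℤ) (x : ℝ) : ‖cexp (-(s * x * I))‖ = 1 := by
  have : (-(s * x * I) : ℂ) = ((-(s * x) : ℝ) : ℂ) * I := by push_cast; ring
  rw [this, Complex.norm_exp_ofReal_mul_I]

theorem hasSum_II {g : ℝ → ℂ} (hg : Continuous g) {r : ℝ} (hr0 : 0 ≤ r) (hr1 : r < 1) (s : ℤ) :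
    HasSum (fun n : ℕ => (r : ℂ) ^ n * II g (s * n))
      (∫ x in (0 : ℝ)..2 * π, (1 - r * cexp (-(s * x * I)))⁻¹ * g x) := by
  have h1 : ∀ n : ℕ, (r : ℂ) ^ n * II g (s * n) =
      ∫ x in (0 : ℝ)..2 * π, (r * cexp (-(s * x * I))) ^ n * g x := by
    intro n
    rw [II, ← intervalIntegral.integral_const_mul]
    congr 1
    ext x
    rw [mul_pow, ← Complex.exp_nat_mul, mul_assoc ((r : ℂ) ^ n)]
    congr 3
    push_cast; ring
  simp_rw [h1]
  have hn : ∀ x : ℝ, ‖(r * cexp (-(s * x * I)) : ℂ)‖ = r := by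
    intro x
    rw [norm_mul, norm_cexp, Complex.norm_real, Real.norm_of_nonneg hr0, mul_one]
  refine intervalIntegral.hasSum_integral_of_dominated_convergence (fun n x => r ^ n * ‖g x‖)
    (fun n => Continuous.aestronglyMeasurable (by fun_prop)) (fun n => ae_of_all _ fun x _ => ?_)
    (ae_of_all _ fun x _ => (summable_geometric_of_lt_one hr0 hr1).mul_right _) ?_
    (ae_of_all _ fun x _ => ?_)
  · rw [norm_mul, norm_pow, hn]
  · simp_rw [tsum_mul_right]
    exact Continuous.intervalIntegrable (by fun_prop) _ _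
  · have h2 : ‖(r * cexp (-(s * x * I)) : ℂ)‖ < 1 := by rw [hn]; exact hr1
    have h3 := (hasSum_geometric_of_norm_lt_one h2).mul_right (g x)
    exact h3

noncomputable def PK (r x : ℝ) : ℝ := (1 - r ^ 2) / (1 - 2 * r * Real.cos x + r ^ 2)

theorem den_pos {r : ℝ} (hr0 : 0 ≤ r) (hr1 : r < 1) (x : ℝ) : 0 < 1 - 2 * r * Real.cos x + r ^ 2 := by
  nlinarith [Real.cos_le_one x, mul_pos (sub_pos.mpr hr1) (sub_pos.mpr hr1)]

theorem PK_nonneg {r : ℝ} (hr0 : 0 ≤ r) (hr1 : r < 1) (x : ℝ) : 0 ≤ PK r x :=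
  div_nonneg (by nlinarith) (den_pos hr0 hr1 x).le

theorem PK_cont {r : ℝ} (hr0 : 0 ≤ r) (hr1 : r < 1) : Continuous (PK r) :=
  continuous_const.div (by fun_prop) fun x => (den_pos hr0 hr1 x).ne'

theorem ker_ne {r : ℝ} (hr0 : 0 ≤ r) (hr1 : r < 1) (s : ℤ) (x : ℝ) :
    (1 - r * cexp (-(s * x * I)) : ℂ) ≠ 0 := by
  intro h
  have h1 : ‖(r * cexp (-(s * x * I)) : ℂ)‖ = r := by
    rw [norm_mul, norm_cexp, Complex.norm_real, Real.norm_of_nonneg hr0, mul_one]
  rw [← sub_eq_zero.mp h, norm_one] at h1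
  linarith

theorem PK_eq {r : ℝ} (hr0 : 0 ≤ r) (hr1 : r < 1) (x : ℝ) :
    (PK r x : ℂ) = (1 - r * cexp (-((1 : ℤ) * x * I)))⁻¹ +
      (1 - r * cexp (-((-1 : ℤ) * x * I)))⁻¹ - 1 := by
  have h1 := ker_ne hr0 hr1 1 x
  have h2 := ker_ne hr0 hr1 (-1) x
  have h3 : cexp (-((1 : ℤ) * x * I)) * cexp (-((-1 : ℤ) * x * I)) = 1 := by
    rw [← Complex.exp_add]; simp
  have h4 : cexp (-((1 : ℤ) * x * I)) + cexp (-((-1 : ℤ) * x * I)) = 2 * Real.cos x := by
    rw [Complex.ofReal_cos, Complex.two_cos]; simp [add_comm]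
  have h5 : ((1 - 2 * r * Real.cos x + r ^ 2 : ℝ) : ℂ) ≠ 0 := by
    exact_mod_cast (den_pos hr0 hr1 x).ne'
  generalize cexp (-((1 : ℤ) * x * I)) = a at *
  generalize cexp (-((-1 : ℤ) * x * I)) = b at *
  have h6 : ((1 - 2 * r * Real.cos x + r ^ 2 : ℝ) : ℂ) = (1 - r * a) * (1 - r * b) := by
    rw [Complex.ofReal_add, Complex.ofReal_sub, Complex.ofReal_mul, Complex.ofReal_mul]
    push_cast [-Complex.ofReal_cos]
    linear_combination r * h4 - r ^ 2 * h3
  rw [PK, Complex.ofReal_div, h6]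
  push_cast
  field_simp
  linear_combination r ^ 2 * h3

theorem hasSum_poisson {g : ℝ → ℂ} (hg : Continuous g) (hneg : ∀ n : ℤ, n < 0 → II g n = 0)
    {r : ℝ} (hr0 : 0 ≤ r) (hr1 : r < 1) :
    HasSum (fun n : ℕ => (r : ℂ) ^ n * II g n) (∫ x in (0 : ℝ)..2 * π, PK r x * g x) := by
  have h1 := hasSum_II hg hr0 hr1 1
  have h2 := hasSum_II hg hr0 hr1 (-1)
  have h3 : HasSum (fun n : ℕ => (r : ℂ) ^ n * II g ((-1 : ℤ) * n))
      (∫ x in (0 : ℝ)..2 * π, g x) := by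
    convert hasSum_single (f := fun n : ℕ => (r : ℂ) ^ n * II g ((-1 : ℤ) * n)) 0 ?_ using 1
    · simp [II]
    · intro n hn
      rw [hneg _ (by omega), mul_zero]
  have h4 := h2.unique h3
  have c : ∀ s : ℤ, IntervalIntegrable
      (fun x : ℝ => (1 - r * cexp (-(s * x * I)))⁻¹ * g x) volume 0 (2 * π) := fun s =>
    ((Continuous.inv₀ (by fun_prop) (ker_ne hr0 hr1 s)).mul hg).intervalIntegrable _ _
  simp only [one_mul] at h1
  convert h1 using 1
  simp_rw [PK_eq hr0 hr1, sub_mul, add_mul, one_mul]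
  rw [intervalIntegral.integral_sub ((c 1).add (c (-1))) (hg.intervalIntegrable _ _),
    intervalIntegral.integral_add (c 1) (c (-1)), h4]
  simp

theorem II_one {n : ℤ} (hn : n ≠ 0) : II (fun _ => 1) n = 0 := by
  have h : (-(n * I) : ℂ) ≠ 0 := neg_ne_zero.mpr (mul_ne_zero (by exact_mod_cast hn) I_ne_zero)
  have : ∀ x : ℝ, cexp (-(n * x * I)) * 1 = cexp (-(n * I) * x) := fun x => by
    rw [mul_one]; congr 1; ring
  simp_rw [II, this]
  rw [integral_exp_mul_complex h]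
  have e : (-(n * I) * ((2 * π : ℝ) : ℂ)) = ((-n : ℤ) : ℂ) * (2 * π * I) := by push_cast; ring
  rw [e, Complex.exp_int_mul_two_pi_mul_I]
  simp

theorem integral_PK {r : ℝ} (hr0 : 0 ≤ r) (hr1 : r < 1) :
    ∫ x in (0 : ℝ)..2 * π, PK r x = 2 * π := by
  have h1 := hasSum_poisson (g := fun _ => 1) continuous_const (fun n hn => II_one hn.ne) hr0 hr1
  have h2 : HasSum (fun n : ℕ => (r : ℂ) ^ n * II (fun _ => 1) n) (2 * π) := by
    convert hasSum_single (f := fun n : ℕ => (r : ℂ) ^ n * II (fun _ => 1) n) 0 ?_ using 1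
    · simp [II]
    · intro n hn
      rw [II_one (by exact_mod_cast hn), mul_zero]
  have h3 := h1.unique h2
  simp only [mul_one] at h3
  rw [intervalIntegral.integral_ofReal] at h3
  exact_mod_cast h3

theorem poisson_bound {g : ℝ → ℂ} (hg : Continuous g) (hneg : ∀ n : ℤ, n < 0 → II g n = 0)
    {M : ℝ} (hM : ∀ x ∈ Set.Icc (0 : ℝ) (2 * π), ‖g x‖ ≤ M) {r : ℝ} (hr0 : 0 ≤ r) (hr1 : r < 1) :
    ‖∑' n : ℕ, (r : ℂ) ^ n * II g n‖ ≤ 2 * π * M := by
  have e : 2 * π * M = ∫ x in (0 : ℝ)..2 * π, PK r x * M := by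
    rw [intervalIntegral.integral_mul_const, integral_PK hr0 hr1]
  have hc := PK_cont hr0 hr1
  rw [(hasSum_poisson hg hneg hr0 hr1).tsum_eq, e]
  refine intervalIntegral.norm_integral_le_of_norm_le Real.two_pi_pos.le
    (ae_of_all _ fun x hx => ?_) (Continuous.intervalIntegrable (by fun_prop) _ _)
  rw [norm_mul, Complex.norm_real, Real.norm_of_nonneg (PK_nonneg hr0 hr1 x)]
  exact mul_le_mul_of_nonneg_left (hM x ⟨hx.1.le, hx.2⟩) (PK_nonneg hr0 hr1 x)

theorem II_deriv {f : ℝ → ℂ} (hf : ContDiff ℝ 1 f) (hp : Function.Periodic f (2 * π)) (n : ℤ) :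
    II (deriv f) n = n * I * II f n := by
  have hd : ∀ x, HasDerivAt f (deriv f x) x := fun x =>
    (hf.differentiable one_ne_zero x).hasDerivAt
  have hc : Continuous (deriv f) := hf.continuous_deriv le_rfl
  have he : ∀ x : ℝ, HasDerivAt (fun x : ℝ => cexp (-(n * x * I)))
      (cexp (-(n * x * I)) * (-(n * I))) x := fun x => by
    have : HasDerivAt (fun x : ℝ => (-(n * x * I) : ℂ)) (-(n * I)) x := by
      have := (((hasDerivAt_id x).ofReal_comp.const_mul (n : ℂ)).mul_const I).neg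
      rw [Complex.ofReal_one, mul_one] at this
      exact this
    exact this.cexp
  have := intervalIntegral.integral_mul_deriv_eq_deriv_mul (a := 0) (b := 2 * π)
    (fun x _ => he x) (fun x _ => hd x) (Continuous.intervalIntegrable (by fun_prop) _ _)
    (hc.intervalIntegrable _ _)
  rw [II, this, II, ← intervalIntegral.integral_const_mul]
  have e1 : f (2 * π) = f 0 := by simpa using hp 0
  have e2 : cexp (-(n * ((2 * π : ℝ) : ℂ) * I)) = 1 := by
    have e : (-(n * ((2 * π : ℝ) : ℂ) * I)) = ((-n : ℤ) : ℂ) * (2 * π * I) := by push_cast; ring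
    rw [e, Complex.exp_int_mul_two_pi_mul_I]
  rw [e1, e2]
  simp only [ofReal_zero, mul_zero, zero_mul, neg_zero, Complex.exp_zero, sub_self, zero_sub]
  rw [← intervalIntegral.integral_neg]
  congr 1
  ext x
  ring

theorem series_deriv {a : ℕ → ℂ} {B : ℝ} (hB : ∀ n, ‖a n‖ ≤ B) {r : ℝ} (hr0 : 0 < r)
    (hr1 : r < 1) :
    HasDerivAt (fun t : ℝ => ∑' n : ℕ, a n * (t : ℂ) ^ n)
      (∑' n : ℕ, a n * (n * (r : ℂ) ^ (n - 1))) r := by
  obtain ⟨q, hq1, hq2⟩ := exists_between hr1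
  have hq0 : 0 < q := hr0.trans hq1
  have hB0 : 0 ≤ B := (norm_nonneg _).trans (hB 0)
  have hq : ‖q‖ < 1 := by rwa [Real.norm_of_nonneg hq0.le]
  have hs0 : Summable fun n : ℕ => (n : ℝ) ^ 1 * q ^ n :=
    summable_pow_mul_geometric_of_norm_lt_one 1 hq
  have hs : Summable fun n : ℕ => B / q * ((n : ℝ) ^ 1 * q ^ n) := hs0.mul_left (B / q)
  have h1 : ∀ (n : ℕ) (y : ℝ), y ∈ Set.Ioo 0 q →
      HasDerivAt (fun t : ℝ => a n * (t : ℂ) ^ n) (a n * (n * (y : ℂ) ^ (n - 1))) y := by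
    intro n y _
    have h0 : HasDerivAt (fun t : ℝ => (t : ℂ) ^ n) (n * (y : ℂ) ^ (n - 1)) y :=
      (hasDerivAt_pow n (y : ℂ)).comp_ofReal
    exact h0.const_mul (a n)
  have h2 : ∀ (n : ℕ) (y : ℝ), y ∈ Set.Ioo 0 q →
      ‖a n * (n * (y : ℂ) ^ (n - 1))‖ ≤ B / q * ((n : ℝ) ^ 1 * q ^ n) := by
    intro n y hy
    rw [norm_mul, norm_mul, norm_pow, Complex.norm_real, Real.norm_of_nonneg hy.1.le,
      Complex.norm_natCast]
    cases n with
    | zero => simp
    | succ n =>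
      have h1 : y ^ n ≤ q ^ n := pow_le_pow_left₀ hy.1.le hy.2.le n
      have h2 : B / q * (((n + 1 : ℕ) : ℝ) ^ 1 * q ^ (n + 1)) = B * ((n + 1 : ℕ) * q ^ n) := by
        field_simp; ring
      rw [h2, Nat.add_sub_cancel]
      have := hy.1
      gcongr
      exact hB _
  have h3 : Summable fun n : ℕ => a n * (r : ℂ) ^ n := by
    have h5 : Summable fun n : ℕ => B * r ^ n :=
      (summable_geometric_of_lt_one hr0.le hr1).mul_left B
    have h6 : ∀ n : ℕ, ‖a n * (r : ℂ) ^ n‖ ≤ B * r ^ n := by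
      intro n
      rw [norm_mul, norm_pow, Complex.norm_real, Real.norm_of_nonneg hr0.le]
      gcongr
      exact hB _
    exact Summable.of_norm_bounded (f := fun n : ℕ => a n * (r : ℂ) ^ n) h5 h6
  have h4 : r ∈ Set.Ioo 0 q := ⟨hr0, hq1⟩
  exact hasDerivAt_tsum_of_isPreconnected hs isOpen_Ioo isPreconnected_Ioo h1 h2 h4 h3 h4

theorem radial_lipschitz {f : ℝ → ℂ} (hf : ContDiff ℝ 1 f) (hp : Function.Periodic f (2 * π))
    (hneg : ∀ n : ℤ, n < 0 → fourierCoeffOn Real.two_pi_pos f n = 0) :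
    ∃ L, 0 ≤ L ∧ ∀ r r' : ℝ, 1 / 2 ≤ r → r ≤ r' → r' < 1 →
      ‖∑' n : ℕ, fourierCoeffOn Real.two_pi_pos f n * (r' : ℂ) ^ n -
        ∑' n : ℕ, fourierCoeffOn Real.two_pi_pos f n * (r : ℂ) ^ n‖ ≤ L * (r' - r) := by
  have hc : Continuous (deriv f) := hf.continuous_deriv le_rfl
  have hπ : (π : ℂ) ≠ 0 := by exact_mod_cast Real.pi_ne_zero
  obtain ⟨M, hM⟩ := (isCompact_Icc (a := (0 : ℝ)) (b := 2 * π)).exists_bound_of_continuousOn
    hc.continuousOn
  obtain ⟨B, hB⟩ := (isCompact_Icc (a := (0 : ℝ)) (b := 2 * π)).exists_bound_of_continuousOn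
    hf.continuous.continuousOn
  have hM0 : 0 ≤ M := (norm_nonneg _).trans (hM 0 ⟨le_rfl, Real.two_pi_pos.le⟩)
  have hneg' : ∀ n : ℤ, n < 0 → II (deriv f) n = 0 := by
    intro n hn
    have := hneg n hn
    rw [coeff_eq] at this
    rw [II_deriv hf hp, (mul_eq_zero.mp this).resolve_left (by simp [hπ]), mul_zero]
  have hb : ∀ n : ℕ, ‖fourierCoeffOn Real.two_pi_pos f n‖ ≤
      ‖(1 / (2 * π) : ℂ)‖ * (B * |2 * π - 0|) := by
    intro n
    rw [coeff_eq, norm_mul]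
    gcongr
    refine intervalIntegral.norm_integral_le_of_norm_le_const fun x hx => ?_
    rw [Set.uIoc_of_le Real.two_pi_pos.le] at hx
    rw [norm_mul, norm_cexp, one_mul]
    exact hB x ⟨hx.1.le, hx.2⟩
  refine ⟨2 * M, by positivity, fun r r' h1 h2 h3 => ?_⟩
  refine norm_image_sub_le_of_norm_deriv_le_segment'
    (f := fun t : ℝ => ∑' n : ℕ, fourierCoeffOn Real.two_pi_pos f n * (t : ℂ) ^ n)
    (fun x hx => (series_deriv hb (by linarith [hx.1]) (by linarith [hx.2])).hasDerivWithinAt)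
    (fun x hx => ?_) r' ⟨h2, le_rfl⟩
  have x0 : 0 < x := by linarith [hx.1]
  have x1 : x < 1 := by linarith [hx.2]
  have h4 := poisson_bound hc hneg' hM x0.le x1
  have h5 : ∑' n : ℕ, (x : ℂ) ^ n * II (deriv f) n = (2 * π * I * x) *
      ∑' n : ℕ, fourierCoeffOn Real.two_pi_pos f n * (n * (x : ℂ) ^ (n - 1)) := by
    rw [← tsum_mul_left]
    congr 1
    ext n
    rw [II_deriv hf hp, coeff_eq]
    cases n with
    | zero => simp
    | succ n =>
      rw [Nat.add_sub_cancel]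
      push_cast
      field_simp
      ring
  rw [h5, norm_mul] at h4
  have h6 : ‖(2 * π * I * x : ℂ)‖ = 2 * π * x := by
    simp [abs_of_pos Real.pi_pos, abs_of_pos x0]
  rw [h6] at h4
  set A := ‖∑' n : ℕ, fourierCoeffOn Real.two_pi_pos f n * (n * (x : ℂ) ^ (n - 1))‖
  have hA : 0 ≤ A := norm_nonneg _
  have h7 : x * A ≤ M := le_of_mul_le_mul_left (by linarith) Real.two_pi_pos
  nlinarith [hx.1]

end Pool.Agent.P.MP_ee8931_an
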