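import Mathlib

/-! Root extraction and the product formula for the finite zero-angle function. -/

namespace Pool.Agent.P.MP_ee8931_an

open Polynomial Finset

/-- If `V(x) V(-x) = 0` then `V` has a factor `X + ζ` with `|ζ| = x`. -/
theorem exists_factor (V : ℝ[X]) {x : ℝ} (hx : 0 ≤ x) (h : V.eval x * V.eval (-x) = 0) :
    ∃ ζ : ℝ, |ζ| = x ∧ ∃ V₁, V = (X + C ζ) * V₁ := by
  rcases mul_eq_zero.mp h with h | h
  · refine ⟨-x, by rw [abs_neg, abs_of_nonneg hx], ?_⟩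
    have := (dvd_iff_isRoot (p := V) (a := x)).mpr h
    rwa [map_neg, ← sub_eq_add_neg]
  · refine ⟨x, abs_of_nonneg hx, ?_⟩
    have := (dvd_iff_isRoot (p := V) (a := -x)).mpr h
    rwa [map_neg, sub_neg_eq_add] at this

theorem g_factor (V₁ : ℝ[X]) (ζ t : ℝ) :
    ((X + C ζ) * V₁).eval t * ((X + C ζ) * V₁).eval (-t) =
      (|ζ| ^ 2 - t ^ 2) * (V₁.eval t * V₁.eval (-t)) := by
  simp only [eval_mul, eval_add, eval_X, eval_C, sq_abs]; ring

theorem nonneg_of_right {F : ℝ → ℝ} (hF : Continuous F) {a b : ℝ} (hab : a < b)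
    (h : ∀ t ∈ Set.Ioc a b, 0 ≤ F t) : 0 ≤ F a := by
  have : a ∈ closure (Set.Ioc a b) := by rw [closure_Ioc hab.ne]; exact ⟨le_rfl, hab.le⟩
  exact (closure_minimal h (isClosed_le continuous_const hF)) this

theorem root_extract (n : ℕ) : ∀ (a : ℕ → ℝ) (τ : ℝ) (V : ℝ[X]), τ ≠ 0 →
    (∀ i j, i < j → j ≤ n → a j < a i) → 0 ≤ a n →
    (∀ k ≤ n, 0 ≤ (-1) ^ k * τ * (V.eval (a k) * V.eval (-a k))) →
    ∃ ζ : ℕ → ℝ, (∀ k < n, |ζ k| ≤ a k) ∧ ∏ k ∈ range n, (X + C (ζ k)) ∣ V := by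
  induction n with
  | zero => intro a τ V _ _ _ _; exact ⟨fun _ => 0, by simp, by simp⟩
  | succ n ih =>
    intro a τ V hτ ha h0 hs
    have hpos : ∀ k ≤ n + 1, 0 ≤ a k := fun k hk => by
      rcases hk.eq_or_lt with rfl | h
      · exact h0
      · exact h0.trans (ha k _ h le_rfl).le
    have h10 : a 1 < a 0 := ha 0 1 (by omega) (by omega)
    have hc : ∀ U : ℝ[X], Continuous fun t => τ * (U.eval t * U.eval (-t)) := fun U =>
      continuous_const.mul (U.continuous.mul (U.continuous.comp continuous_neg))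
    have key : ∃ ζ₀ : ℝ, |ζ₀| ≤ a 0 ∧ ∃ V₁, V = (X + C ζ₀) * V₁ ∧
        ∀ k ≤ n, 0 ≤ (-1) ^ k * (-τ) * (V₁.eval (a (k + 1)) * V₁.eval (-a (k + 1))) := by
      have gen : ∀ (ζ₀ : ℝ) (V₁ : ℝ[X]), V = (X + C ζ₀) * V₁ → ∀ k ≤ n, a (k + 1) < |ζ₀| →
          0 ≤ (-1) ^ k * (-τ) * (V₁.eval (a (k + 1)) * V₁.eval (-a (k + 1))) := by
        intro ζ₀ V₁ hV k hk hlt
        have h1 := hs (k + 1) (by omega)
        rw [hV, g_factor] at h1
        have h2 : 0 < |ζ₀| ^ 2 - a (k + 1) ^ 2 := by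
          have := hpos (k + 1) (by omega)
          nlinarith
        refine nonneg_of_mul_nonneg_right (a := |ζ₀| ^ 2 - a (k + 1) ^ 2) ?_ h2
        exact h1.trans_eq (by ring)
      by_cases hA : ∃ x ∈ Set.Ioc (a 1) (a 0), V.eval x * V.eval (-x) = 0
      · obtain ⟨x, hx, hx0⟩ := hA
        obtain ⟨ζ₀, h1, V₁, hV⟩ := exists_factor V ((hpos 1 (by omega)).trans hx.1.le) hx0
        refine ⟨ζ₀, h1 ▸ hx.2, V₁, hV, fun k hk => gen ζ₀ V₁ hV k hk ?_⟩
        rw [h1]
        rcases Nat.eq_zero_or_pos k with rfl | hk0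
        · exact hx.1
        · exact (ha 1 (k + 1) (by omega) (by omega)).trans hx.1
      · push Not at hA
        have hp : ∀ t ∈ Set.Ioc (a 1) (a 0), 0 ≤ τ * (V.eval t * V.eval (-t)) := by
          intro t ht
          by_contra hneg
          push Not at hneg
          have h1 : 0 ≤ τ * (V.eval (a 0) * V.eval (-a 0)) := by simpa using hs 0 (by omega)
          obtain ⟨x, hx, hx0⟩ := intermediate_value_Icc ht.2 (hc V).continuousOn ⟨hneg.le, h1⟩
          exact hA x ⟨ht.1.trans_le hx.1, hx.2⟩ ((mul_eq_zero.mp hx0).resolve_left hτ)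
        have h1 := nonneg_of_right (hc V) h10 hp
        have h2 : 0 ≤ -(τ * (V.eval (a 1) * V.eval (-a 1))) := by
          have := hs 1 (by omega)
          simpa [mul_assoc] using this
        have h3 : V.eval (a 1) * V.eval (-a 1) = 0 :=
          (mul_eq_zero.mp (le_antisymm (by linarith) h1)).resolve_left hτ
        obtain ⟨ζ₀, h4, V₁, hV⟩ := exists_factor V (hpos 1 (by omega)) h3
        refine ⟨ζ₀, h4 ▸ h10.le, V₁, hV, fun k hk => ?_⟩
        rcases Nat.eq_zero_or_pos k with rfl | hk0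
        · have h5 : 0 ≤ -(τ * (V₁.eval (a 1) * V₁.eval (-a 1))) := by
            refine nonneg_of_right (F := fun t => -(τ * (V₁.eval t * V₁.eval (-t))))
              (hc V₁).neg h10 fun t ht => ?_
            have h6 := hp t ht
            rw [hV, g_factor, h4] at h6
            have h7 : 0 < t ^ 2 - a 1 ^ 2 := by
              have := hpos 1 (by omega)
              nlinarith [ht.1]
            refine nonneg_of_mul_nonneg_right (a := t ^ 2 - a 1 ^ 2) ?_ h7
            exact h6.trans_eq (by ring)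
          simpa [mul_assoc] using h5
        · exact gen ζ₀ V₁ hV k hk (h4 ▸ ha 1 (k + 1) (by omega) (by omega))
    obtain ⟨ζ₀, h1, V₁, hV, h2⟩ := key
    obtain ⟨ζ, h3, h4⟩ := ih (fun k => a (k + 1)) (-τ) V₁ (neg_ne_zero.mpr hτ)
      (fun i j h5 h6 => ha _ _ (by omega) (by omega)) h0 h2
    refine ⟨fun k => Nat.casesOn k ζ₀ ζ, ?_, ?_⟩
    · intro k hk
      cases k with
      | zero => exact h1
      | succ k => exact h3 k (by omega)
    · rw [prod_range_succ', hV, mul_comm]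
      exact mul_dvd_mul_left _ h4

/-- Interlacing data. -/
structure Inter (ρ σ : ℕ → ℝ) : Prop where
  pos : ∀ k, 0 < σ k
  lt1 : ∀ k, σ k < ρ k
  lt2 : ∀ k, ρ (k + 1) < σ k

namespace Inter
variable {ρ σ : ℕ → ℝ} (h : Inter ρ σ)
include h

theorem rho_anti : StrictAnti ρ := strictAnti_nat_of_succ_lt fun k => (h.lt2 k).trans (h.lt1 k)

theorem sigma_anti : StrictAnti σ := strictAnti_nat_of_succ_lt fun k => (h.lt1 _).trans (h.lt2 k)

theorem sigma_lt_rho {j k : ℕ} (hjk : j ≤ k) : σ k < ρ j :=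
  (h.lt1 k).trans_le (h.rho_anti.antitone hjk)

theorem rho_lt_sigma {j k : ℕ} (hjk : k < j) : ρ j < σ k :=
  (h.rho_anti.antitone hjk).trans_lt (h.lt2 k)

theorem rho_pos (k : ℕ) : 0 < ρ k := (h.pos k).trans (h.lt1 k)

theorem sq_ne (j k : ℕ) : ρ j ^ 2 - σ k ^ 2 ≠ 0 := by
  have h1 := h.pos k
  have h2 := h.rho_pos j
  rcases le_or_gt j k with hjk | hjk
  · have := h.sigma_lt_rho hjk; nlinarith
  · have := h.rho_lt_sigma hjk; nlinarith

theorem sign_prod {k N : ℕ} (hk : k < N) :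
    0 < (-1) ^ (N + k + 1) * ∏ j ∈ range N, (ρ j ^ 2 - σ k ^ 2) := by
  induction N, hk using Nat.le_induction with
  | base =>
    rw [show k + 1 + k + 1 = 2 * (k + 1) by ring, pow_mul, neg_one_sq, one_pow, one_mul]
    refine prod_pos fun j hj => ?_
    have := h.sigma_lt_rho (show j ≤ k by have := mem_range.mp hj; omega)
    have := h.pos k
    nlinarith
  | succ N hN ih =>
    rw [prod_range_succ, show N + 1 + k + 1 = N + k + 1 + 1 by ring, pow_succ]
    have h1 := h.rho_lt_sigma (show k < N from hN)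
    have h2 := h.rho_pos N
    have h3 : 0 < σ k ^ 2 - ρ N ^ 2 := by nlinarith
    exact (mul_pos ih h3).trans_eq (by ring)

end Inter

/-- The polynomial attached to a solution of the linear system. -/
noncomputable def WW (σ : ℕ → ℝ) (N : ℕ) (r ε : ℝ) (y : ℕ → ℝ) : ℝ[X] :=
  C ε * ∏ k ∈ range N, ((X + C (σ k)) * (X + C (-σ k))) +
    ∑ k ∈ range N, C (y k) * ((X + C (r * σ k)) *
      ∏ l ∈ (range N).erase k, ((X + C (σ l)) * (X + C (-σ l))))

theorem WW_eval (σ : ℕ → ℝ) (N : ℕ) (r ε : ℝ) (y : ℕ → ℝ) (x : ℝ) :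
    (WW σ N r ε y).eval x = ε * ∏ k ∈ range N, (x ^ 2 - σ k ^ 2) +
      ∑ k ∈ range N, y k * ((x + r * σ k) * ∏ l ∈ (range N).erase k, (x ^ 2 - σ l ^ 2)) := by
  have : ∀ l, (x + σ l) * (x + -σ l) = x ^ 2 - σ l ^ 2 := fun l => by ring
  simp only [WW, eval_add, eval_mul, eval_C, eval_prod, eval_finsetSum, eval_X, this]

theorem WW_eval_sigma (σ : ℕ → ℝ) {N : ℕ} (r ε : ℝ) (y : ℕ → ℝ) {k : ℕ} (hk : k < N) {x : ℝ}
    (hx : x ^ 2 = σ k ^ 2) : (WW σ N r ε y).eval x =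
      y k * ((x + r * σ k) * ∏ l ∈ (range N).erase k, (σ k ^ 2 - σ l ^ 2)) := by
  rw [WW_eval, hx, prod_eq_zero (mem_range.mpr hk) (sub_self _), mul_zero, zero_add,
    sum_eq_single k]
  · intro j _ hjk
    rw [prod_eq_zero (i := k) (mem_erase.mpr ⟨hjk.symm, mem_range.mpr hk⟩) (sub_self _)]
    simp
  · intro h; exact absurd (mem_range.mpr hk) h

theorem monic_pair (a b : ℝ) : ((X + C a) * (X + C b)).Monic :=
  (monic_X_add_C a).mul (monic_X_add_C b)

theorem natDegree_pair (a b : ℝ) : ((X + C a) * (X + C b)).natDegree = 2 := by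
  rw [(monic_X_add_C a).natDegree_mul (monic_X_add_C b)]; simp

theorem pair_prod (s : Finset ℕ) (a b : ℕ → ℝ) :
    (∏ k ∈ s, ((X + C (a k)) * (X + C (b k)))).Monic ∧
    (∏ k ∈ s, ((X + C (a k)) * (X + C (b k)))).natDegree = 2 * s.card ∧
    (∏ k ∈ s, ((X + C (a k)) * (X + C (b k)))).nextCoeff = ∑ k ∈ s, (a k + b k) := by
  refine ⟨monic_prod_of_monic _ _ fun k _ => monic_pair _ _, ?_, ?_⟩
  · rw [natDegree_prod_of_monic _ _ fun k _ => monic_pair _ _]
    simp [natDegree_pair, mul_comm]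
  · rw [Monic.nextCoeff_prod _ _ fun k _ => monic_pair _ _]
    refine sum_congr rfl fun k _ => ?_
    rw [(monic_X_add_C _).nextCoeff_mul (monic_X_add_C _), nextCoeff_X_add_C, nextCoeff_X_add_C]

theorem pair_prod_coeff (n : ℕ) (a b : ℕ → ℝ) :
    (∏ k ∈ range (n + 1), ((X + C (a k)) * (X + C (b k)))).coeff (2 * n + 1) =
      ∑ k ∈ range (n + 1), (a k + b k) := by
  obtain ⟨-, h2, h3⟩ := pair_prod (range (n + 1)) a b
  rw [← h3, nextCoeff_of_natDegree_pos (by rw [h2]; simp), h2]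
  simp; rfl

theorem WW_coeff (σ : ℕ → ℝ) (n : ℕ) (r ε : ℝ) (y : ℕ → ℝ) :
    (WW σ (n + 1) r ε y).natDegree ≤ 2 * n + 2 ∧ (WW σ (n + 1) r ε y).coeff (2 * n + 2) = ε ∧
      (WW σ (n + 1) r ε y).coeff (2 * n + 1) = ∑ k ∈ range (n + 1), y k := by
  obtain ⟨h1, h2, -⟩ := pair_prod (range (n + 1)) σ fun k => -σ k
  have h3 := pair_prod_coeff n σ fun k => -σ k
  rw [card_range] at h2
  have h4 : ∀ k ∈ range (n + 1), ((X + C (r * σ k)) *
      ∏ l ∈ (range (n + 1)).erase k, ((X + C (σ l)) * (X + C (-σ l)))).Monic ∧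
      ((X + C (r * σ k)) *
      ∏ l ∈ (range (n + 1)).erase k, ((X + C (σ l)) * (X + C (-σ l)))).natDegree = 2 * n + 1 := by
    intro k hk
    obtain ⟨a1, a2, -⟩ := pair_prod ((range (n + 1)).erase k) σ fun k => -σ k
    refine ⟨(monic_X_add_C _).mul a1, ?_⟩
    rw [(monic_X_add_C _).natDegree_mul a1, a2, card_erase_of_mem hk, natDegree_X_add_C]
    simp; ring
  refine ⟨?_, ?_, ?_⟩
  · refine (natDegree_add_le _ _).trans (max_le ?_ ?_)
    · exact (natDegree_C_mul_le _ _).trans (by rw [h2]; omega)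
    · refine natDegree_sum_le_of_forall_le _ _ fun k hk => ?_
      exact (natDegree_C_mul_le _ _).trans (by rw [(h4 k hk).2]; omega)
  · rw [WW, coeff_add, coeff_C_mul, finsetSum_coeff, sum_eq_zero]
    · have := h1.coeff_natDegree
      rw [h2] at this
      rw [show 2 * n + 2 = 2 * (n + 1) by ring, this]; ring
    · intro k hk
      rw [coeff_C_mul, coeff_eq_zero_of_natDegree_lt (by rw [(h4 k hk).2]; omega), mul_zero]
  · rw [WW, coeff_add, coeff_C_mul, finsetSum_coeff, h3]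
    simp only [add_neg_cancel, sum_const_zero, mul_zero, zero_add]
    refine sum_congr rfl fun k hk => ?_
    have := (h4 k hk).1.coeff_natDegree
    rw [(h4 k hk).2] at this
    rw [coeff_C_mul, this, mul_one]

theorem structure_thm {ρ σ : ℕ → ℝ} (h : Inter ρ σ) (n : ℕ) {r ε : ℝ} (hr0 : 0 ≤ r) (hr1 : r < 1)
    (y : ℕ → ℝ) (hy : ∀ j < n + 1,
      ∑ k ∈ range (n + 1), (ρ j - r * σ k) / (ρ j ^ 2 - σ k ^ 2) * y k = ε) :
    ∃ ζ : ℕ → ℝ, (∀ k < n + 1, |ζ k| ≤ σ k) ∧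
      WW σ (n + 1) r ε y = C ε * ∏ k ∈ range (n + 1), ((X + C (ρ k)) * (X + C (ζ k))) := by
  set W := WW σ (n + 1) r ε y with hW
  have h1 : ∀ j < n + 1, W.eval (-ρ j) = 0 := by
    intro j hj
    rw [hW, WW_eval, ← hy j hj, sum_mul, ← sum_add_distrib]
    refine sum_eq_zero fun k hk => ?_
    rw [← mul_prod_erase _ _ hk, neg_sq]
    have := h.sq_ne j k
    field_simp
    ring
  have h2 : ∏ j ∈ range (n + 1), (X + C (ρ j)) ∣ W := by
    refine prod_dvd_of_coprime (fun i _ j _ hij => ?_) fun j hj => ?_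
    · have : IsUnit (-ρ i - -ρ j) := by
        refine IsUnit.mk0 _ fun h0 => hij (h.rho_anti.injective (by linarith))
      simpa using isCoprime_X_sub_C_of_isUnit_sub this
    · have := (dvd_iff_isRoot (p := W) (a := -ρ j)).mpr (h1 j (mem_range.mp hj))
      rwa [map_neg, sub_neg_eq_add] at this
  obtain ⟨V, hV⟩ := h2
  obtain ⟨ζ, h3, V', h4⟩ := root_extract (n + 1) (fun k => if k < n + 1 then σ k else 0)
    ((-1) ^ (n + 1)) V (by positivity) (by
      intro i j hij hj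
      rw [if_pos (show i < n + 1 by omega)]
      split_ifs
      · exact h.sigma_anti hij
      · exact h.pos i) (by simp) (by
      intro k hk
      split_ifs with hk'
      · have e1 := WW_eval_sigma σ r ε y hk' (x := σ k) rfl
        have e2 := WW_eval_sigma σ r ε y hk' (x := -σ k) (neg_sq _)
        have e3 : W.eval (σ k) * W.eval (-σ k) ≤ 0 := by
          rw [hW, e1, e2]
          have : 0 ≤ (1 - r ^ 2) * (y k * σ k *
              ∏ l ∈ (range (n + 1)).erase k, (σ k ^ 2 - σ l ^ 2)) ^ 2 :=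
            mul_nonneg (by nlinarith) (sq_nonneg _)
          nlinarith
        have e4 : W.eval (σ k) * W.eval (-σ k) =
            (∏ j ∈ range (n + 1), (ρ j ^ 2 - σ k ^ 2)) * (V.eval (σ k) * V.eval (-σ k)) := by
          rw [hV]
          simp only [eval_mul, eval_prod, eval_add, eval_X, eval_C]
          rw [mul_mul_mul_comm, ← prod_mul_distrib]
          congr 1
          exact prod_congr rfl fun j _ => by ring
        have e5 := h.sign_prod hk'
        refine nonneg_of_mul_nonneg_right ?_ e5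
        have e6 : ((-1 : ℝ) ^ (n + 1 + k)) ^ 2 = 1 := by
          rw [← pow_mul, mul_comm, pow_mul]; simp
        have e7 : (-1 : ℝ) ^ (n + 1 + k + 1) * (∏ j ∈ range (n + 1), (ρ j ^ 2 - σ k ^ 2)) *
            ((-1) ^ k * (-1) ^ (n + 1) * (V.eval (σ k) * V.eval (-σ k))) =
            -(((-1 : ℝ) ^ (n + 1 + k)) ^ 2 * (W.eval (σ k) * W.eval (-σ k))) := by
          rw [e4]; ring
        rw [e7, e6]; linarith
      · obtain rfl : k = n + 1 := by omega
        rw [← mul_pow, neg_zero]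
        simpa using mul_self_nonneg (V.eval 0))
  refine ⟨ζ, fun k hk => by simpa [hk] using h3 k hk, ?_⟩
  obtain ⟨p1, p2, -⟩ := pair_prod (range (n + 1)) ρ ζ
  rw [card_range] at p2
  have h5 : W = (∏ k ∈ range (n + 1), ((X + C (ρ k)) * (X + C (ζ k)))) * V' := by
    rw [hV, h4, prod_mul_distrib, mul_assoc]
  obtain ⟨c1, c2, -⟩ := WW_coeff σ n r ε y
  rw [← hW] at c1 c2
  have h6 : V' = C (V'.coeff 0) := by
    by_cases h0 : V' = 0
    · simp [h0]
    · apply eq_C_of_natDegree_le_zero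
      rw [h5, p1.natDegree_mul' h0, p2] at c1
      omega
  rw [h6, mul_comm] at h5
  have h7 : V'.coeff 0 = ε := by
    have := p1.coeff_natDegree
    rw [p2] at this
    rw [h5, coeff_C_mul, show 2 * n + 2 = 2 * (n + 1) by ring, this, mul_one] at c2
    exact c2
  rw [h5, h7]

theorem solution_zero {ρ σ : ℕ → ℝ} (h : Inter ρ σ) (n : ℕ) {r : ℝ} (hr0 : 0 ≤ r) (hr1 : r < 1)
    (y : ℕ → ℝ) (hy : ∀ j < n + 1,
      ∑ k ∈ range (n + 1), (ρ j - r * σ k) / (ρ j ^ 2 - σ k ^ 2) * y k = 0) :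
    ∀ k < n + 1, y k = 0 := by
  obtain ⟨ζ, -, h2⟩ := structure_thm h n hr0 hr1 y hy
  intro k hk
  have e1 := WW_eval_sigma σ r 0 y hk (x := σ k) rfl
  rw [h2] at e1
  simp only [map_zero, zero_mul, eval_zero] at e1
  have h3 : σ k + r * σ k ≠ 0 := by have := h.pos k; positivity
  have h4 : ∏ l ∈ (range (n + 1)).erase k, (σ k ^ 2 - σ l ^ 2) ≠ 0 := by
    refine prod_ne_zero_iff.mpr fun l hl h0 => (mem_erase.mp hl).1 (h.sigma_anti.injective ?_)
    have := h.pos k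
    have := h.pos l
    nlinarith
  exact (mul_eq_zero.mp e1.symm).resolve_right (mul_ne_zero h3 h4)

theorem solution_one {ρ σ : ℕ → ℝ} (h : Inter ρ σ) (n : ℕ) {r : ℝ} (hr0 : 0 ≤ r) (hr1 : r < 1)
    (y : ℕ → ℝ) (hy : ∀ j < n + 1,
      ∑ k ∈ range (n + 1), (ρ j - r * σ k) / (ρ j ^ 2 - σ k ^ 2) * y k = 1) :
    ∃ ζ : ℕ → ℝ, (∀ k < n + 1, |ζ k| ≤ σ k) ∧
      (∀ k < n + 1, (1 + r) * ∏ j ∈ range (n + 1), ((ρ j - σ k) * (ζ j - σ k)) =
        -(1 - r) * ∏ j ∈ range (n + 1), ((ρ j + σ k) * (ζ j + σ k))) ∧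
      ∑ k ∈ range (n + 1), y k = ∑ k ∈ range (n + 1), (ρ k + ζ k) := by
  obtain ⟨ζ, h1, h2⟩ := structure_thm h n hr0 hr1 y hy
  rw [map_one, one_mul] at h2
  refine ⟨ζ, h1, fun k hk => ?_, ?_⟩
  · have e1 := WW_eval_sigma σ r 1 y hk (x := σ k) rfl
    have e2 := WW_eval_sigma σ r 1 y hk (x := -σ k) (neg_sq _)
    rw [h2] at e1 e2
    simp only [eval_prod, eval_mul, eval_add, eval_X, eval_C] at e1 e2
    have e3 : ∏ j ∈ range (n + 1), ((ρ j - σ k) * (ζ j - σ k)) =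
        ∏ j ∈ range (n + 1), ((-σ k + ρ j) * (-σ k + ζ j)) := prod_congr rfl fun j _ => by ring
    have e4 : ∏ j ∈ range (n + 1), ((ρ j + σ k) * (ζ j + σ k)) =
        ∏ j ∈ range (n + 1), ((σ k + ρ j) * (σ k + ζ j)) := prod_congr rfl fun j _ => by ring
    rw [e3, e4, e1, e2]; ring
  · rw [← (WW_coeff σ n r 1 y).2.2, h2, pair_prod_coeff]

end Pool.Agent.P.MP_ee8931_an
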