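import Mathlib
import Pool.Agent.P.MP_ee8931_an.Roots

/-! Uniform estimates for the numbers `ζ_k`. -/

namespace Pool.Agent.P.MP_ee8931_an

open Finset

def Cfg (ρ σ : ℕ → ℝ) (N : ℕ) (η : ℝ) (ζ : ℕ → ℝ) : Prop :=
  (∀ k < N, |ζ k| ≤ σ k) ∧ ∀ k < N, ∏ j ∈ range N, ((ρ j - σ k) * (ζ j - σ k)) =
    -η * ∏ j ∈ range N, ((ρ j + σ k) * (ζ j + σ k))

noncomputable def gam (ρ σ : ℕ → ℝ) (k : ℕ) : ℝ := min ((ρ k - σ k) ^ 2) ((σ k - ρ (k + 1)) ^ 2)

noncomputable def KK (ρ σ : ℕ → ℝ) (M : ℝ) (k : ℕ) : ℝ :=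
  2 * σ k * (ρ k + σ k) * Real.exp (2 * σ k * M / gam ρ σ k) / (ρ k - σ k)

variable {ρ σ : ℕ → ℝ} {N : ℕ} {η : ℝ} {ζ : ℕ → ℝ}

theorem gam_pos (h : Inter ρ σ) (k : ℕ) : 0 < gam ρ σ k :=
  lt_min (pow_pos (sub_pos.mpr (h.lt1 k)) 2) (pow_pos (sub_pos.mpr (h.lt2 k)) 2)

theorem KK_pos (h : Inter ρ σ) (M : ℝ) (k : ℕ) : 0 < KK ρ σ M k := by
  have := h.pos k
  have := h.rho_pos k
  have := sub_pos.mpr (h.lt1 k)
  unfold KK
  positivity

theorem t_pos (h : Inter ρ σ) (hc : Cfg ρ σ N η ζ) {j : ℕ} (hj : j < N) : 0 < ρ j + ζ j := by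
  have := (abs_le.mp (hc.1 j hj)).1
  have := h.lt1 j
  linarith

theorem a_lower (h : Inter ρ σ) (hc : Cfg ρ σ N η ζ) {k : ℕ} (hp : ∀ j < k, ρ (j + 1) ≤ ζ j)
    {j : ℕ} (hj : j ∈ (range N).erase k) : gam ρ σ k ≤ (ρ j - σ k) * (ζ j - σ k) := by
  obtain ⟨hjk, hjN⟩ := mem_erase.mp hj
  rcases lt_or_gt_of_ne hjk with hlt | hlt
  · have h1 := h.rho_anti.antitone hlt.le
    have h2 := h.rho_anti.antitone (show j + 1 ≤ k from hlt)
    have h3 := hp j hlt
    have h4 := sub_pos.mpr (h.lt1 k)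
    refine (min_le_left _ _).trans ?_
    rw [sq]
    exact mul_le_mul (by linarith) (by linarith) h4.le (by linarith)
  · have h1 := h.rho_anti.antitone (show k + 1 ≤ j from hlt)
    have h2 := (abs_le.mp (hc.1 j (mem_range.mp hjN))).2
    have h3 := h.lt1 j
    have h4 := sub_pos.mpr (h.lt2 k)
    refine (min_le_right _ _).trans ?_
    rw [sq, show (ρ j - σ k) * (ζ j - σ k) = (σ k - ρ j) * (σ k - ζ j) by ring]
    exact mul_le_mul (by linarith) (by linarith) h4.le (by linarith)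

theorem split_eq (hc : Cfg ρ σ N η ζ) {k : ℕ} (hk : k < N) :
    (ρ k - σ k) * (σ k - ζ k) * ∏ j ∈ (range N).erase k, ((ρ j - σ k) * (ζ j - σ k)) =
      η * ((ρ k + σ k) * (ζ k + σ k)) *
        ∏ j ∈ (range N).erase k, ((ρ j + σ k) * (ζ j + σ k)) := by
  have := hc.2 k hk
  rw [← mul_prod_erase _ _ (mem_range.mpr hk), ← mul_prod_erase _ _ (mem_range.mpr hk)] at this
  linear_combination -this

theorem zeta_upper (h : Inter ρ σ) (hc : Cfg ρ σ N η ζ) (hη : 0 ≤ η) {M : ℝ}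
    (hM : ∑ j ∈ range N, (ρ j + ζ j) ≤ M) {k : ℕ} (hk : k < N)
    (hp : ∀ j < k, ρ (j + 1) ≤ ζ j) : σ k - ζ k ≤ η * KK ρ σ M k := by
  have hγ := gam_pos h k
  have hσ := h.pos k
  have hA : 0 < ∏ j ∈ (range N).erase k, ((ρ j - σ k) * (ζ j - σ k)) :=
    prod_pos fun j hj => hγ.trans_le (a_lower h hc hp hj)
  have h1 : ∏ j ∈ (range N).erase k, ((ρ j + σ k) * (ζ j + σ k)) ≤
      ∏ j ∈ (range N).erase k, ((ρ j - σ k) * (ζ j - σ k) *
        Real.exp (2 * σ k * (ρ j + ζ j) / gam ρ σ k)) := by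
    refine prod_le_prod (fun j hj => ?_) fun j hj => ?_
    · have h2 := a_lower h hc hp hj
      have h3 := t_pos h hc (mem_range.mp (mem_erase.mp hj).2)
      nlinarith [mul_pos hσ h3]
    · have h2 := a_lower h hc hp hj
      have h3 := t_pos h hc (mem_range.mp (mem_erase.mp hj).2)
      have h4 := Real.add_one_le_exp (2 * σ k * (ρ j + ζ j) / gam ρ σ k)
      have h5 : 0 ≤ 2 * σ k * (ρ j + ζ j) / gam ρ σ k := by positivity
      have h6 : gam ρ σ k * (2 * σ k * (ρ j + ζ j) / gam ρ σ k) = 2 * σ k * (ρ j + ζ j) := by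
        field_simp
      calc (ρ j + σ k) * (ζ j + σ k)
          = (ρ j - σ k) * (ζ j - σ k) + gam ρ σ k * (2 * σ k * (ρ j + ζ j) / gam ρ σ k) := by
            rw [h6]; ring
        _ ≤ (ρ j - σ k) * (ζ j - σ k) * (2 * σ k * (ρ j + ζ j) / gam ρ σ k + 1) := by
            nlinarith [mul_le_mul_of_nonneg_right h2 h5]
        _ ≤ _ := mul_le_mul_of_nonneg_left h4 (hγ.le.trans h2)
  rw [prod_mul_distrib (f := fun j => (ρ j - σ k) * (ζ j - σ k)), ← Real.exp_sum] at h1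
  have h2 : ∑ j ∈ (range N).erase k, 2 * σ k * (ρ j + ζ j) / gam ρ σ k ≤
      2 * σ k * M / gam ρ σ k := by
    rw [← sum_div, ← mul_sum]
    refine div_le_div_of_nonneg_right (mul_le_mul_of_nonneg_left (le_trans ?_ hM) (by positivity))
      hγ.le
    exact sum_le_sum_of_subset_of_nonneg (erase_subset _ _) fun j hj _ =>
      (t_pos h hc (mem_range.mp hj)).le
  have h3 := h1.trans (mul_le_mul_of_nonneg_left (Real.exp_le_exp.mpr h2) hA.le)
  have h4 := split_eq hc hk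
  obtain ⟨h5, h6⟩ := abs_le.mp (hc.1 k hk)
  have h7 := h.rho_pos k
  have h8 := sub_pos.mpr (h.lt1 k)
  set A := ∏ j ∈ (range N).erase k, ((ρ j - σ k) * (ζ j - σ k))
  set B := ∏ j ∈ (range N).erase k, ((ρ j + σ k) * (ζ j + σ k))
  set E := Real.exp (2 * σ k * M / gam ρ σ k) with hE
  have hE0 : 0 < E := Real.exp_pos _
  have h9 : (ρ k - σ k) * (σ k - ζ k) * A ≤ η * (2 * σ k * (ρ k + σ k) * E) * A := by
    rw [h4]
    calc η * ((ρ k + σ k) * (ζ k + σ k)) * B ≤ η * ((ρ k + σ k) * (ζ k + σ k)) * (A * E) :=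
          mul_le_mul_of_nonneg_left h3 (mul_nonneg hη (mul_nonneg (by positivity) (by linarith)))
      _ ≤ η * ((ρ k + σ k) * (σ k + σ k)) * (A * E) := by gcongr
      _ = _ := by ring
  have h10 := le_of_mul_le_mul_right h9 hA
  rw [KK, ← hE, ← mul_div_assoc, le_div_iff₀ h8]
  linarith

theorem zeta_lower (h : Inter ρ σ) (hc : Cfg ρ σ N η ζ) (hη : 0 ≤ η) {k : ℕ} (hk : k < N)
    (hp : ∀ j < k, ρ (j + 1) ≤ ζ j) (h0 : 0 ≤ ζ k) :
    η * (ρ k * σ k / (ρ k - σ k)) ≤ σ k - ζ k := by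
  have hγ := gam_pos h k
  have hσ := h.pos k
  have hA : 0 < ∏ j ∈ (range N).erase k, ((ρ j - σ k) * (ζ j - σ k)) :=
    prod_pos fun j hj => hγ.trans_le (a_lower h hc hp hj)
  have h1 : ∏ j ∈ (range N).erase k, ((ρ j - σ k) * (ζ j - σ k)) ≤
      ∏ j ∈ (range N).erase k, ((ρ j + σ k) * (ζ j + σ k)) := by
    refine prod_le_prod (fun j hj => hγ.le.trans (a_lower h hc hp hj)) fun j hj => ?_
    have h3 := t_pos h hc (mem_range.mp (mem_erase.mp hj).2)
    nlinarith [mul_pos hσ h3]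
  have h4 := split_eq hc hk
  have h7 := h.rho_pos k
  have h8 := sub_pos.mpr (h.lt1 k)
  set A := ∏ j ∈ (range N).erase k, ((ρ j - σ k) * (ζ j - σ k))
  set B := ∏ j ∈ (range N).erase k, ((ρ j + σ k) * (ζ j + σ k))
  have h9 : η * (ρ k * σ k) * A ≤ (ρ k - σ k) * (σ k - ζ k) * A := by
    rw [h4]
    calc η * (ρ k * σ k) * A ≤ η * ((ρ k + σ k) * (ζ k + σ k)) * A := by
          gcongr <;> linarith
      _ ≤ _ := mul_le_mul_of_nonneg_left h1 (by positivity)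
  have h10 := le_of_mul_le_mul_right h9 hA
  rw [← mul_div_assoc, div_le_iff₀ h8]
  linarith

theorem exists_eta (h : Inter ρ σ) (M : ℝ) (m : ℕ) : ∃ η₀ > 0, ∀ (N : ℕ) (η : ℝ) (ζ : ℕ → ℝ),
    Cfg ρ σ N η ζ → 0 ≤ η → η ≤ η₀ → ∑ j ∈ range N, (ρ j + ζ j) ≤ M → m ≤ N →
    ∀ j < m, ρ (j + 1) ≤ ζ j := by
  induction m with
  | zero => exact ⟨1, one_pos, by simp⟩
  | succ m ih =>
    obtain ⟨η₀, h0, h1⟩ := ih
    have hK := KK_pos h M m
    have hd := sub_pos.mpr (h.lt2 m)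
    refine ⟨min η₀ ((σ m - ρ (m + 1)) / KK ρ σ M m), lt_min h0 (div_pos hd hK), ?_⟩
    intro N η ζ hc hη hη' hM hm j hj
    have h2 := h1 N η ζ hc hη (hη'.trans (min_le_left _ _)) hM (by omega)
    rcases Nat.lt_succ_iff_lt_or_eq.mp hj with hj' | rfl
    · exact h2 j hj'
    · have h3 := zeta_upper h hc hη hM (show j < N by omega) h2
      have h4 := (le_div_iff₀ hK).mp (hη'.trans (min_le_right _ _))
      linarith

theorem sum_bounds (h : Inter ρ σ) (M : ℝ) (m : ℕ) : ∃ η₀ > 0, ∃ K > 0,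
    ∀ (N : ℕ) (η : ℝ) (ζ : ℕ → ℝ), Cfg ρ σ N η ζ → 0 ≤ η → η ≤ η₀ →
    ∑ j ∈ range N, (ρ j + ζ j) ≤ M → m ≤ N →
    ∑ j ∈ range m, (ρ j + σ j) - η * K ≤ ∑ j ∈ range N, (ρ j + ζ j) ∧
    ∑ j ∈ range N, (ρ j + ζ j) ≤ ∑ j ∈ range N, (ρ j + σ j) -
      η * ∑ j ∈ range m, ρ j * σ j / (ρ j - σ j) := by
  obtain ⟨η₀, h0, h1⟩ := exists_eta h M m
  have hK : 0 ≤ ∑ j ∈ range m, KK ρ σ M j := sum_nonneg fun j _ => (KK_pos h M j).le
  refine ⟨η₀, h0, ∑ j ∈ range m, KK ρ σ M j + 1, by linarith, ?_⟩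
  intro N η ζ hc hη hη' hM hm
  have h2 := h1 N η ζ hc hη hη' hM hm
  have hsub : range m ⊆ range N := range_subset_range.mpr hm
  constructor
  · have h3 : ∑ j ∈ range m, (ρ j + ζ j) ≤ ∑ j ∈ range N, (ρ j + ζ j) :=
      sum_le_sum_of_subset_of_nonneg hsub fun j hj _ => (t_pos h hc (mem_range.mp hj)).le
    have h4 : ∑ j ∈ range m, (ρ j + σ j) ≤ ∑ j ∈ range m, ((ρ j + ζ j) + η * KK ρ σ M j) := by
      refine sum_le_sum fun j hj => ?_
      have hj' := mem_range.mp hj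
      have := zeta_upper h hc hη hM (show j < N by omega) fun i hi => h2 i (by omega)
      linarith
    rw [sum_add_distrib (f := fun j => ρ j + ζ j), ← mul_sum] at h4
    nlinarith
  · have h3 : ∑ j ∈ range m, (σ j - ζ j) ≤ ∑ j ∈ range N, (σ j - ζ j) :=
      sum_le_sum_of_subset_of_nonneg hsub fun j hj _ =>
        sub_nonneg.mpr (abs_le.mp (hc.1 j (mem_range.mp hj))).2
    have h4 : ∑ j ∈ range m, η * (ρ j * σ j / (ρ j - σ j)) ≤ ∑ j ∈ range m, (σ j - ζ j) := by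
      refine sum_le_sum fun j hj => ?_
      have hj' := mem_range.mp hj
      exact zeta_lower h hc hη (show j < N by omega) (fun i hi => h2 i (by omega))
        ((h.rho_pos _).le.trans (h2 j hj'))
    rw [← mul_sum] at h4
    have h5 : ∑ j ∈ range N, (ρ j + σ j) =
        ∑ j ∈ range N, (ρ j + ζ j) + ∑ j ∈ range N, (σ j - ζ j) := by
      rw [← sum_add_distrib]; exact sum_congr rfl fun j _ => by ring
    linarith

/-- If the limit function is Lipschitz near `1`, the series defining `D` converges. -/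
theorem summable_of_lipschitz (h : Inter ρ σ) (u : ℕ → ℝ → ℝ) (φ : ℝ → ℝ) {L : ℝ} (hL0 : 0 ≤ L)
    (hu : ∀ N r, 1 / 2 ≤ r → r < 1 → ∃ ζ, Cfg ρ σ (N + 1) ((1 - r) / (1 + r)) ζ ∧
      u N r = ∑ j ∈ range (N + 1), (ρ j + ζ j))
    (hlim : ∀ r, 1 / 2 ≤ r → r < 1 → Filter.Tendsto (fun N => u N r) Filter.atTop (nhds (φ r)))
    (hL : ∀ r r', 1 / 2 ≤ r → r ≤ r' → r' < 1 → φ r' ≤ φ r + L * (1 - r)) :
    Summable fun j => ρ j * σ j / (ρ j - σ j) := by
  set M := φ (1 / 2) + L + 1 with hM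
  have hev : ∀ r, 1 / 2 ≤ r → r < 1 → ∀ᶠ N in Filter.atTop, u N r ≤ M := by
    intro r h1 h2
    have h3 := hL (1 / 2) r le_rfl h1 h2
    exact ((hlim r h1 h2).eventually (gt_mem_nhds (show φ r < M by linarith))).mono
      fun N hN => hN.le
  have heta : ∀ r : ℝ, 1 / 2 ≤ r → r < 1 →
      (1 - r) / 2 ≤ (1 - r) / (1 + r) ∧ (1 - r) / (1 + r) ≤ 1 - r := by
    intro r h1 h2
    exact ⟨div_le_div_of_nonneg_left (by linarith) (by linarith) (by linarith),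
      div_le_self (by linarith) (by linarith)⟩
  have ha : ∀ m r, 1 / 2 ≤ r → r < 1 → ∑ j ∈ range m, (ρ j + σ j) ≤ φ r + L * (1 - r) := by
    intro m r h1 h2
    obtain ⟨η₀, h0, K, hK, hb⟩ := sum_bounds h M m
    refine le_of_forall_pos_le_add fun ε hε => ?_
    set δ := min (1 - r) (min η₀ (ε / K)) with hδ
    have d0 : 0 < δ := lt_min (by linarith) (lt_min h0 (div_pos hε hK))
    have d1 : δ ≤ 1 - r := min_le_left _ _
    have d2 : δ ≤ η₀ := (min_le_right _ _).trans (min_le_left _ _)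
    have d3 : δ * K ≤ ε := (le_div_iff₀ hK).mp ((min_le_right _ _).trans (min_le_right _ _))
    have r1 : 1 / 2 ≤ 1 - δ := by linarith
    have r2 : 1 - δ < 1 := by linarith
    obtain ⟨e1, e2⟩ := heta _ r1 r2
    have h3 : ∑ j ∈ range m, (ρ j + σ j) - ε ≤ φ (1 - δ) := by
      refine ge_of_tendsto (hlim _ r1 r2) ?_
      filter_upwards [hev _ r1 r2, Filter.eventually_ge_atTop m] with N hN hm
      obtain ⟨ζ, hc, he⟩ := hu N _ r1 r2
      have := (hb _ _ ζ hc (by linarith) (by linarith) (he ▸ hN) (by omega)).1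
      rw [he]
      nlinarith
    have h4 := hL r (1 - δ) h1 (by linarith) r2
    linarith
  refine summable_of_sum_range_le (c := 2 * L) (fun j => ?_) fun m => ?_
  · have := h.pos j
    have := h.rho_pos j
    have := sub_pos.mpr (h.lt1 j)
    positivity
  · obtain ⟨η₀, h0, K, hK, hb⟩ := sum_bounds h M m
    set δ := min (1 / 2) η₀ with hδ
    have d0 : 0 < δ := lt_min (by norm_num) h0
    have d1 : δ ≤ 1 / 2 := min_le_left _ _
    have d2 : δ ≤ η₀ := min_le_right _ _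
    have r1 : 1 / 2 ≤ 1 - δ := by linarith
    have r2 : 1 - δ < 1 := by linarith
    obtain ⟨e1, e2⟩ := heta _ r1 r2
    set D := ∑ j ∈ range m, ρ j * σ j / (ρ j - σ j) with hD
    have hD0 : 0 ≤ D := sum_nonneg fun j _ => by
      have := h.pos j
      have := h.rho_pos j
      have := sub_pos.mpr (h.lt1 j)
      positivity
    have h3 : φ (1 - δ) ≤ φ (1 - δ) + L * δ - δ / 2 * D := by
      refine le_of_tendsto (hlim _ r1 r2) ?_
      filter_upwards [hev _ r1 r2, Filter.eventually_ge_atTop m] with N hN hm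
      obtain ⟨ζ, hc, he⟩ := hu N _ r1 r2
      have h4 := (hb _ _ ζ hc (by linarith) (by linarith) (he ▸ hN) (by omega)).2
      have h5 := ha (N + 1) _ r1 r2
      rw [he]
      have h6 : δ / 2 * D ≤ (1 - (1 - δ)) / (1 + (1 - δ)) * D :=
        mul_le_mul_of_nonneg_right (by linarith) hD0
      linarith
    have h7 : δ * D ≤ δ * (2 * L) := by linarith
    exact le_of_mul_le_mul_left h7 d0

end Pool.Agent.P.MP_ee8931_an
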