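import Mathlib
import Pool.Agent.P.MP_ee8931_an.Ineq
import Pool.Agent.P.MP_ee8931_an.Analytic

/-! The zero-angle point is not `C^1` when `D = ∞`. -/

namespace Pool.Agent.P.MP_ee8931_an

open Finset

noncomputable def AR (ρ σ : ℕ → ℝ) (N : ℕ) (r : ℝ) : Matrix (Fin N) (Fin N) ℝ :=
  Matrix.of fun j k => (ρ j - r * σ k) / (ρ j ^ 2 - σ k ^ 2)

def ext0 {N : ℕ} (y : Fin N → ℝ) (k : ℕ) : ℝ := if h : k < N then y ⟨k, h⟩ else 0

theorem mulVec_eq {ρ σ : ℕ → ℝ} {N : ℕ} {r : ℝ} (y : Fin N → ℝ) (j : ℕ) (hj : j < N) :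
    ∑ k ∈ range N, (ρ j - r * σ k) / (ρ j ^ 2 - σ k ^ 2) * ext0 y k =
      (AR ρ σ N r).mulVec y ⟨j, hj⟩ := by
  rw [sum_range]
  simp [Matrix.mulVec, dotProduct, AR, ext0]

theorem AR_unit {ρ σ : ℕ → ℝ} (h : Inter ρ σ) (n : ℕ) {r : ℝ} (hr0 : 0 ≤ r) (hr1 : r < 1) :
    IsUnit (AR ρ σ (n + 1) r) := by
  rw [← Matrix.mulVec_injective_iff_isUnit]
  intro y y' e
  have h1 : (AR ρ σ (n + 1) r).mulVec (y - y') = 0 := by
    rw [Matrix.mulVec_sub, sub_eq_zero]; exact e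
  have h2 := solution_zero h n hr0 hr1 (ext0 (y - y')) fun j hj => by rw [mulVec_eq _ j hj, h1]; rfl
  ext k
  have := h2 k k.2
  simpa [ext0, k.2, sub_eq_zero] using this

theorem AR_cfg {ρ σ : ℕ → ℝ} (h : Inter ρ σ) (n : ℕ) {r : ℝ} (hr0 : 0 ≤ r) (hr1 : r < 1) :
    ∃ ζ, Cfg ρ σ (n + 1) ((1 - r) / (1 + r)) ζ ∧
      ∑ j, ∑ k, (AR ρ σ (n + 1) r)⁻¹ j k = ∑ j ∈ range (n + 1), (ρ j + ζ j) := by
  have hu := (Matrix.isUnit_iff_isUnit_det _).mp (AR_unit h n hr0 hr1)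
  set y := (AR ρ σ (n + 1) r)⁻¹.mulVec fun _ => 1 with hy
  have h1 : (AR ρ σ (n + 1) r).mulVec y = fun _ => 1 := by
    rw [hy, Matrix.mulVec_mulVec, Matrix.mul_nonsing_inv _ hu, Matrix.one_mulVec]
  obtain ⟨ζ, h2, h3, h4⟩ := solution_one h n hr0 hr1 (ext0 y) fun j hj => by
    rw [mulVec_eq _ j hj, h1]
  refine ⟨ζ, ⟨h2, fun k hk => ?_⟩, ?_⟩
  · have h5 := h3 k hk
    have h6 : (1 + r) ≠ 0 := by linarith
    field_simp
    linear_combination h5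
  · rw [← h4, sum_range]
    refine sum_congr rfl fun j _ => ?_
    rw [ext0, dif_pos j.2]
    simp [hy, Matrix.mulVec, dotProduct]

theorem complex_sum {ρ σ : ℕ → ℝ} (h : Inter ρ σ) (n : ℕ) {r : ℝ} (hr0 : 0 ≤ r) (hr1 : r < 1) :
    ∑ j, ∑ k, (Matrix.of fun j k : Fin (n + 1) =>
      ((ρ j : ℂ) - r * σ k) / ((ρ j : ℂ) ^ 2 - (σ k : ℂ) ^ 2))⁻¹ j k =
      ((∑ j, ∑ k, (AR ρ σ (n + 1) r)⁻¹ j k : ℝ) : ℂ) := by
  have hu := (Matrix.isUnit_iff_isUnit_det _).mp (AR_unit h n hr0 hr1)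
  have e : (Matrix.of fun j k : Fin (n + 1) =>
      ((ρ j : ℂ) - r * σ k) / ((ρ j : ℂ) ^ 2 - (σ k : ℂ) ^ 2)) =
      (AR ρ σ (n + 1) r).map Complex.ofRealHom := by
    ext j k; simp [AR]
  have e2 : ((AR ρ σ (n + 1) r).map Complex.ofRealHom)⁻¹ =
      (AR ρ σ (n + 1) r)⁻¹.map Complex.ofRealHom := by
    apply Matrix.inv_eq_right_inv
    rw [← Matrix.map_mul, Matrix.mul_nonsing_inv _ hu]
    simp
  rw [e, e2]
  simp

open Real in
theorem main (s : ℕ → ℝ) (hs : StrictAnti s) (hpos : ∀ r, 0 < s r)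
    (hD : ¬ Summable fun j => s (2 * j) * s (2 * j + 1) / (s (2 * j) - s (2 * j + 1)))
    (f : ℝ → ℂ) (hf : ContDiff ℝ 1 f) (hp : Function.Periodic f (2 * π))
    (hneg : ∀ n : ℤ, n < 0 → fourierCoeffOn Real.two_pi_pos f n = 0)
    (hlim : ∀ z : ℂ, ‖z‖ < 1 → Filter.Tendsto
      (fun N : ℕ => ∑ j, ∑ k, (Matrix.of fun j k : Fin N =>
        ((s (2 * j) : ℂ) - z * s (2 * k + 1)) /
          ((s (2 * j) : ℂ) ^ 2 - (s (2 * k + 1) : ℂ) ^ 2))⁻¹ j k)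
      Filter.atTop (nhds (∑' n : ℕ, fourierCoeffOn Real.two_pi_pos f n * z ^ n))) : False := by
  have h : Inter (fun j => s (2 * j)) (fun k => s (2 * k + 1)) :=
    ⟨fun k => hpos _, fun k => hs (by omega), fun k => hs (by omega)⟩
  obtain ⟨L, hL0, hL⟩ := radial_lipschitz hf hp hneg
  refine hD (summable_of_lipschitz h
    (fun N r => ∑ j, ∑ k, (AR (fun j => s (2 * j)) (fun k => s (2 * k + 1)) (N + 1) r)⁻¹ j k)
    (fun r => (∑' n : ℕ, fourierCoeffOn Real.two_pi_pos f n * (r : ℂ) ^ n).re) hL0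
    (fun N r h1 h2 => AR_cfg h N (by linarith) h2) (fun r h1 h2 => ?_) fun r r' h1 h2 h3 => ?_)
  · have h3 := (hlim r (by rw [Complex.norm_real, Real.norm_of_nonneg (by linarith)]; exact h2)).comp
      (Filter.tendsto_add_atTop_nat 1)
    have h4 := (Complex.continuous_re.tendsto _).comp h3
    refine h4.congr fun N => ?_
    simp only [Function.comp]
    rw [complex_sum h N (by linarith) h2, Complex.ofReal_re]
  · have h4 := (Complex.re_le_norm _).trans (hL r r' h1 h2 h3)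
    rw [Complex.sub_re] at h4
    nlinarith

end Pool.Agent.P.MP_ee8931_an
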